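import Pool.Agent.H14.LK.Tq

/-!
# The line bundles
-/

set_option autoImplicit false
set_option linter.unusedSectionVars false

namespace Pool.Agent.H14.LK

open Module
open Pool.Agent.W594.SYZ2 Pool.Agent.TH735.AQ Pool.Agent.Y167
open Q276.SYZ (IsGauss isGauss_zero isGauss_one gauss_small isGauss_int)
open Q47.EB.Ex3 (H1 H1_herm H1_re th th_holo th_add th_good ep ep_add)
open Q36.EF (BasePointFree)

variable {F : Fam}

/-- signs of the coordinates -/
def sj (e1 e2 : ℤˣ) (a : ZMod F.m) : J F → ℤˣ := Sum.elim (sg e1 e2 (dl e1 a)) fun _ => 1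

/-- permutation of the coordinates -/
def pj (e1 : ℤˣ) (a : ZMod F.m) : Equiv.Perm (J F) :=
  Equiv.sumCongr (Equiv.refl _) (Equiv.sigmaCongrRight fun b => pm e1 (ca b a))

theorem A_apply (e1 e2 : ℤˣ) (a : ZMod F.m) (v : V F) (j : J F) :
    (A e1 e2 a v).1 j = ((sj e1 e2 a j : ℤ) : ℂ) * v.1 (pj e1 a j) := by
  rcases j with k | ⟨b, i⟩
  · rfl
  · change v.1 (Sum.inr ⟨b, pm e1 (ca b a) i⟩)
      = (((1 : ℤˣ) : ℤ) : ℂ) * v.1 (Sum.inr ⟨b, pm e1 (ca b a) i⟩)
    simp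

/-- The weights: all coordinates, or the first one only. -/
def wt (T : Bool) : J F → ℕ :=
  Sum.elim (fun k => if T = true ∨ k = 0 then 1 else 0) fun _ => if T = true then 1 else 0

theorem wt_pj (T : Bool) (e1 : ℤˣ) (a : ZMod F.m) (j : J F) : wt T (pj e1 a j) = wt T j := by
  rcases j with k | ⟨b, i⟩ <;> rfl

/-- The character. -/
noncomputable def ch (γ : V F ≃ᵃ[ℂ] V F) : ℂ :=
  ∏ i : Fin F.r, Complex.exp (2 * Real.pi * Complex.I * (((γ 0).1 (Sum.inr ⟨i, 0⟩)).re : ℝ))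

theorem exp_re_eq {z z' : ℂ} (h : IsGauss (z - z')) :
    Complex.exp (2 * Real.pi * Complex.I * (z.re : ℝ))
      = Complex.exp (2 * Real.pi * Complex.I * (z'.re : ℝ)) := by
  obtain ⟨p, q, h⟩ := h
  have h1 := congrArg Complex.re h
  simp only [Complex.sub_re, Complex.add_re, Complex.intCast_re, Complex.mul_re, Complex.I_re,
    mul_zero, Complex.intCast_im, Complex.I_im, mul_one, sub_self, add_zero] at h1
  have h2 : z.re = z'.re + p := by linarith
  rw [h2, Complex.exp_eq_exp_iff_exists_int]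
  refine ⟨p, ?_⟩
  push_cast
  ring

theorem ch_mul {γ δ : V F ≃ᵃ[ℂ] V F} (hγ : γ ∈ Gam F) (hδ : δ ∈ Gam F) :
    ch (γ * δ) = ch γ * ch δ := by
  obtain ⟨e1, e2, a, w, h⟩ := hγ
  obtain ⟨e1', e2', a', w', h'⟩ := hδ
  rw [ch, ch, ch, ← Finset.prod_mul_distrib]
  refine Finset.prod_congr rfl fun i _ => ?_
  have h1 : ((γ * δ) 0).1 (Sum.inr ⟨i, 0⟩)
      = w'.1 (Sum.inr ⟨i, pm e1 (ca i a) 0⟩) + w.1 (Sum.inr ⟨i, 0⟩) := by
    rw [(h.mul h').zero]
    rfl
  rw [h1, h.zero, h'.zero, ← exp_re_eq (h'.diff i (pm e1 (ca i a) 0) 0),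
    ← Complex.exp_add, Complex.add_re]
  congr 1
  push_cast
  ring

theorem ch_norm (γ : V F ≃ᵃ[ℂ] V F) : ‖ch γ‖ = 1 := by
  rw [ch, norm_prod]
  refine Finset.prod_eq_one fun i _ => ?_
  rw [Complex.norm_exp]
  simp

theorem ch_pow {γ : V F ≃ᵃ[ℂ] V F} (hγ : γ ∈ Gam F) {k : ℕ} (hk : ∀ i, F.q i ∣ k) :
    ch γ ^ k = 1 := by
  obtain ⟨e1, e2, a, w, h⟩ := hγ
  rw [ch, ← Finset.prod_pow]
  refine Finset.prod_eq_one fun i _ => ?_
  obtain ⟨t, rfl⟩ := hk i
  obtain ⟨p, q, h2⟩ := h.gauss_q i 0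
  have h3 := congrArg Complex.re h2
  simp only [Complex.mul_re, Complex.natCast_re, Complex.natCast_im, zero_mul, sub_zero,
    Complex.add_re, Complex.intCast_re, Complex.I_re,
    mul_zero, Complex.intCast_im, Complex.I_im, mul_one, sub_self, add_zero] at h3
  rw [pow_mul, h.zero, ← Complex.exp_nat_mul]
  have h4 : (F.q i : ℂ) * (2 * Real.pi * Complex.I
      * ((w.1 (Sum.inr ⟨i, 0⟩)).re : ℝ)) = p * (2 * Real.pi * Complex.I) := by
    have h5 : (F.q i : ℂ) * ((w.1 (Sum.inr ⟨i, 0⟩)).re : ℝ) = p := by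
      exact_mod_cast congrArg (fun x : ℝ => (x : ℂ)) h3
    linear_combination (2 * Real.pi * Complex.I) * h5
  rw [h4, Complex.exp_int_mul_two_pi_mul_I, one_pow]

/-- The factor of automorphy. -/
noncomputable def fac (n : ℕ) (T : Bool) (γ : V F ≃ᵃ[ℂ] V F) (v : V F) : ℂ :=
  ch γ ^ n * ∏ j, ep (2 * F.m * (γ 0).1 j) (2 * F.m * ((γ v).1 j - (γ 0).1 j)) ^ (2 * wt T j)

theorem Rep.fac_eq {γ : V F ≃ᵃ[ℂ] V F} {e1 e2 : ℤˣ} {a : ZMod F.m} {w : V F}
    (h : Rep γ e1 e2 a w) (n : ℕ) (T : Bool) (v : V F) :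
    fac n T γ v = ch γ ^ n * ∏ j, ep (2 * F.m * w.1 j)
      (2 * F.m * (((sj e1 e2 a j : ℤ) : ℂ) * v.1 (pj e1 a j))) ^ (2 * wt T j) := by
  rw [fac]
  congr 1
  refine Finset.prod_congr rfl fun j _ => ?_
  have h2 : (γ v).1 j = ((sj e1 e2 a j : ℤ) : ℂ) * v.1 (pj e1 a j) + w.1 j := by
    rw [h.eq v, ← A_apply e1 e2 a v j]
    rfl
  rw [h.zero, h2, add_sub_cancel_right]

theorem ep_unit (u : ℤˣ) (b z : ℂ) : ep (((u : ℤ) : ℂ) * b) (((u : ℤ) : ℂ) * z) = ep b z := by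
  rcases Int.units_eq_one_or u with rfl | rfl
  · simp
  · simp [ep, H1]

theorem fac_ne (n : ℕ) (T : Bool) (γ : V F ≃ᵃ[ℂ] V F) (v : V F) : fac n T γ v ≠ 0 :=
  mul_ne_zero (pow_ne_zero _ (Finset.prod_ne_zero_iff.2 fun _ _ => Complex.exp_ne_zero _))
    (Finset.prod_ne_zero_iff.2 fun _ _ =>
    pow_ne_zero _ (Complex.exp_ne_zero _))

theorem fac_mul (n : ℕ) (T : Bool) {γ δ : V F ≃ᵃ[ℂ] V F} (hγ : γ ∈ Gam F)
    (hδ : δ ∈ Gam F) (v : V F) : fac n T (γ * δ) v = fac n T γ (δ v) * fac n T δ v := by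
  have hch := ch_mul hγ hδ
  obtain ⟨e1, e2, a, w, h⟩ := hγ
  obtain ⟨e1', e2', a', w', h'⟩ := hδ
  have hj : ∀ j : J F, ep (2 * F.m * ((γ * δ) 0).1 j)
      (2 * F.m * (((γ * δ) v).1 j - ((γ * δ) 0).1 j))
      = ep (2 * F.m * (γ 0).1 j) (2 * F.m * ((γ (δ v)).1 j - (γ 0).1 j))
        * ep (2 * F.m * (δ 0).1 (pj e1 a j))
          (2 * F.m * ((δ v).1 (pj e1 a j) - (δ 0).1 (pj e1 a j))) := by
    intro j
    have h0 : ((γ * δ) 0).1 j = ((sj e1 e2 a j : ℤ) : ℂ) * w'.1 (pj e1 a j) + w.1 j := by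
      change (γ (δ 0)).1 j = _
      rw [h.eq, h'.zero, ← A_apply e1 e2 a w' j]
      rfl
    have h1 : (γ (δ v)).1 j = ((sj e1 e2 a j : ℤ) : ℂ) * (δ v).1 (pj e1 a j) + w.1 j := by
      rw [h.eq, ← A_apply e1 e2 a (δ v) j]
      rfl
    have h2 : ((γ * δ) v).1 j = ((sj e1 e2 a j : ℤ) : ℂ) * (δ v).1 (pj e1 a j) + w.1 j := h1
    have hg1 : IsGauss (2 * F.m * w.1 j) := h.gauss j
    have hg2 : IsGauss (((sj e1 e2 a j : ℤ) : ℂ) * (2 * F.m * w'.1 (pj e1 a j))) := by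
      have := h'.gauss (pj e1 a j)
      rcases Int.units_eq_one_or (sj e1 e2 a j) with hs | hs
      · rw [hs]
        simpa using this
      · rw [hs]
        simpa using this.neg
    rw [h0, h1, h2, h.zero, h'.zero]
    have e1' : 2 * (F.m : ℂ) * (((sj e1 e2 a j : ℤ) : ℂ) * w'.1 (pj e1 a j) + w.1 j)
        = ((sj e1 e2 a j : ℤ) : ℂ) * (2 * F.m * w'.1 (pj e1 a j)) + 2 * F.m * w.1 j := by ring
    rw [e1', ep_add hg1 hg2]
    have e2' : 2 * (F.m : ℂ) * (((sj e1 e2 a j : ℤ) : ℂ) * (δ v).1 (pj e1 a j) + w.1 j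
        - (((sj e1 e2 a j : ℤ) : ℂ) * w'.1 (pj e1 a j) + w.1 j))
        = ((sj e1 e2 a j : ℤ) : ℂ) * (2 * F.m * ((δ v).1 (pj e1 a j) - w'.1 (pj e1 a j))) := by ring
    rw [e2', ep_unit]
    congr 2
    ring
  rw [fac, fac, fac, hch, mul_pow, mul_mul_mul_comm]
  congr 1
  rw [← Equiv.prod_comp (pj e1 a) (fun j => ep (2 * F.m * (δ 0).1 j)
    (2 * F.m * ((δ v).1 j - (δ 0).1 j)) ^ (2 * wt T j)), ← Finset.prod_mul_distrib]
  refine Finset.prod_congr rfl fun j _ => ?_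
  rw [hj j, mul_pow, wt_pj]

theorem coord_holo (j : J F) : Differentiable ℂ fun v : V F => v.1 j :=
  ((ContinuousLinearMap.proj (R := ℂ) (φ := fun _ : J F => ℂ) j).comp
      (S F).subtypeL).differentiable

theorem ep_holo (b c : ℂ) : Differentiable ℂ fun z : ℂ => ep b (2 * F.m * (z - c)) := by
  simp only [ep, H1]
  exact (((((((differentiable_id.sub_const _).const_mul _).mul_const _).const_mul _).const_mul _
    ).add_const _)).cexp

variable (F) in
/-- The line bundles. -/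
noncomputable def LL (n : ℕ) (T : Bool) : LineBundle (Gam F) where
  e := fun γ v => fac n T γ.1 v
  holo := fun γ => by
    refine (prod_holo Finset.univ (fun (j : J F) (v : V F) =>
      ep (2 * F.m * (γ.1 0).1 j) (2 * F.m * ((γ.1 v).1 j - (γ.1 0).1 j)) ^ (2 * wt T j))
        fun j _ => ?_).const_mul _
    exact ((ep_holo _ _).comp ((coord_holo j).comp (affine_differentiable γ.1))).pow _
  ne_zero := fun γ v => fac_ne _ _ _ _
  mul := fun γ δ v => fac_mul n T γ.2 δ.2 v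
  stab := fun γ v h => by
    have h1 : (γ : V F ≃ᵃ[ℂ] V F) = 1 := free γ.2 h
    have h3 : ∀ j : J F, (0 : V F).1 j = 0 := fun _ => rfl
    rw [h1, (Rep.one (F := F)).fac_eq, ch, (Rep.one (F := F)).zero]
    simp [h3, ep, H1]

/-- The Chern form. -/
noncomputable def HH (T : Bool) (v w : V F) : ℂ :=
  ∑ j, (wt T j : ℂ) * (4 * H1 (2 * F.m * v.1 j) (2 * F.m * w.1 j))

theorem HH_herm (T : Bool) : IsHermitian (HH T : V F → V F → ℂ) := by
  refine ⟨fun u v w => ?_, fun a v w => ?_, fun v w => ?_⟩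
  · rw [HH, HH, HH, ← Finset.sum_add_distrib]
    refine Finset.sum_congr rfl fun j _ => ?_
    rw [← mul_add, ← mul_add, ← H1_herm.add_left, ← mul_add]
    rfl
  · rw [HH, HH, Finset.mul_sum]
    refine Finset.sum_congr rfl fun j _ => ?_
    have : H1 (2 * F.m * (a • v).1 j) (2 * F.m * w.1 j) = a * H1 (2 * F.m * v.1 j) (2 * F.m * w.1 j) := by
      have e : 2 * (F.m : ℂ) * (a • v).1 j = a • (2 * F.m * v.1 j) := by
        change 2 * (F.m : ℂ) * (a * v.1 j) = a * (2 * F.m * v.1 j)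
        ring
      rw [e]
      exact H1_herm.smul_left a _ _
    rw [this]
    ring
  · rw [HH, HH, map_sum]
    refine Finset.sum_congr rfl fun j _ => ?_
    rw [map_mul, map_mul, map_ofNat, map_natCast, ← H1_herm.symm]

/-- the diagonal values of the form -/
noncomputable def hd (F : Fam) (z : ℂ) : ℝ := (H1 (2 * F.m * z) (2 * F.m * z)).re

theorem HH_re (T : Bool) (v : V F) :
    (HH T v v).re = ∑ j, (wt T j : ℝ) * (4 * hd F (v.1 j)) := by
  rw [HH, Complex.re_sum]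
  refine Finset.sum_congr rfl fun j _ => ?_
  have h1 : (wt T j : ℂ) * (4 * H1 (2 * F.m * v.1 j) (2 * F.m * v.1 j))
      = (((wt T j : ℝ) * 4 : ℝ) : ℂ) * H1 (2 * F.m * v.1 j) (2 * F.m * v.1 j) := by
    push_cast
    ring
  rw [h1, Complex.re_ofReal_mul, hd]
  ring

theorem hd_nonneg (z : ℂ) : 0 ≤ hd F z := by
  rw [hd, H1_re]
  have := Complex.normSq_nonneg (2 * F.m * z)
  positivity

theorem hd_pos {z : ℂ} (h : z ≠ 0) : 0 < hd F z := by
  rw [hd, H1_re]
  have := Complex.normSq_pos.2 (mul_ne_zero (mul_ne_zero two_ne_zero (m_ne (m := F.m))) h)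
  positivity

theorem HH_nef (T : Bool) : IsNefForm (HH T : V F → V F → ℂ) := by
  intro v
  rw [HH_re]
  refine Finset.sum_nonneg fun j _ => ?_
  have := hd_nonneg (F := F) (v.1 j)
  positivity

theorem HH_pos {T : Bool} {v : V F} {j : J F} (hj : wt T j = 1) (h : v.1 j ≠ 0) :
    0 < (HH T v v).re := by
  rw [HH_re]
  refine Finset.sum_pos' (fun j _ => ?_) ⟨j, Finset.mem_univ _, ?_⟩
  · have := hd_nonneg (F := F) (v.1 j)
    positivity
  · rw [hj]
    have := hd_pos (F := F) h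
    push_cast
    linarith

theorem norm_ep (b z : ℂ) : ‖ep b z‖ ^ 2 = Real.exp (Real.pi *
    (2 * (H1 (z + b) (z + b)).re - 2 * (H1 z z).re)) := by
  rw [TQ.h_diag_add H1_herm, ep, Complex.norm_exp, ← Real.exp_nat_mul]
  congr 1
  have h4 : (2 * Real.pi * H1 z b + Real.pi * H1 b b : ℂ).re
      = 2 * Real.pi * (H1 z b).re + Real.pi * (H1 b b).re := by
    have : (2 * Real.pi : ℂ) = ((2 * Real.pi : ℝ) : ℂ) := by push_cast; rfl
    rw [Complex.add_re, this, Complex.re_ofReal_mul, Complex.re_ofReal_mul]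
  rw [h4]
  push_cast
  ring

theorem hd_unit (u : ℤˣ) (z : ℂ) : hd F (((u : ℤ) : ℂ) * z) = hd F z := by
  rcases Int.units_eq_one_or u with rfl | rfl
  · simp
  · simp [hd, H1]

theorem chern (n : ℕ) (T : Bool) : IsChernForm (LL F n T) (HH T) := by
  refine ⟨HH_herm T, fun _ => 0, differentiable_const _, ?_⟩
  rintro ⟨γ, e1, e2, a, w, h⟩ v
  change ‖fac n T γ v‖ ^ 2 = Real.exp (Real.pi * (HH T (γ v) (γ v)).re
      + 2 * (0 : ℂ).re - (Real.pi * (HH T v v).re + 2 * (0 : ℂ).re))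
  have h2 : ∀ j : J F, ‖ep (2 * F.m * w.1 j)
      (2 * F.m * (((sj e1 e2 a j : ℤ) : ℂ) * v.1 (pj e1 a j))) ^ (2 * wt T j)‖ ^ 2
      = Real.exp (Real.pi * ((wt T j : ℝ) * (4 * hd F ((γ v).1 j))
        - (wt T (pj e1 a j) : ℝ) * (4 * hd F (v.1 (pj e1 a j))))) := by
    intro j
    rw [norm_pow, ← pow_mul, mul_comm (2 * wt T j) 2, pow_mul, norm_ep, ← Real.exp_nat_mul]
    congr 1
    have h3 : 2 * (F.m : ℂ) * (((sj e1 e2 a j : ℤ) : ℂ) * v.1 (pj e1 a j)) + 2 * F.m * w.1 j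
        = 2 * F.m * (γ v).1 j := by
      rw [h.eq v, ← mul_add, ← A_apply e1 e2 a v j]
      rfl
    have h5 := hd_unit (F := F) (sj e1 e2 a j) (v.1 (pj e1 a j))
    rw [h3, wt_pj, ← h5, hd, hd]
    push_cast
    ring
  have h5 : ∑ j, (wt T j : ℝ) * (4 * hd F (v.1 j))
      = ∑ j, (wt T (pj e1 a j) : ℝ) * (4 * hd F (v.1 (pj e1 a j))) :=
    (Equiv.sum_comp (pj e1 a) fun j => (wt T j : ℝ) * (4 * hd F (v.1 j))).symm
  rw [h.fac_eq, norm_mul, norm_pow, ch_norm, one_pow, one_mul, norm_prod, ← Finset.prod_pow,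
    Finset.prod_congr rfl fun j _ => h2 j, ← Real.exp_sum, HH_re, HH_re, h5]
  congr 1
  rw [← Finset.mul_sum, Finset.sum_sub_distrib]
  simp only [Complex.zero_re]
  ring

/-- an even function with the factors of level four -/
noncomputable def G (α z : ℂ) : ℂ :=
  th (z + α) * th (z - α) * (th (-z + α) * th (-z - α))

theorem G_holo (α : ℂ) : Differentiable ℂ (G α) :=
  ((th_holo.comp (differentiable_id.add_const α)).mul
    (th_holo.comp (differentiable_id.sub_const α))).mul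
    ((th_holo.comp (differentiable_id.neg.add_const α)).mul
    (th_holo.comp (differentiable_id.neg.sub_const α)))

theorem G_add (α : ℂ) {b : ℂ} (hb : IsGauss b) (z : ℂ) : G α (z + b) = ep b z ^ 2 * G α z := by
  have h1 := Q36.EI.th_key α hb z
  have h2 := Q36.EI.th_key α hb.neg (-z)
  have h3 : ep (-b) (-z) = ep b z := by
    have := ep_unit (-1) b z
    simpa using this
  have e1 : -(z + b) = -z + -b := by ring
  rw [G, G, e1, h1, h2, h3]
  ring

theorem G_unit (α : ℂ) (u : ℤˣ) (z : ℂ) : G α (((u : ℤ) : ℂ) * z) = G α z := by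
  rcases Int.units_eq_one_or u with rfl | rfl
  · simp
  · have : (((-1 : ℤˣ) : ℤ) : ℂ) * z = -z := by simp
    rw [this, G, G, neg_neg, mul_comm]

/-- The powers with exponents divisible by `m` are base point free. -/
theorem bpf_of_dvd {k : ℕ} (hk : ∀ i, F.q i ∣ k) (T : Bool) :
    BasePointFree ((LL F 1 T).pow k) := by
  intro v
  obtain ⟨α, hα⟩ := Q36.EI.exists_par (Finset.univ : Finset (J F × Bool))
    fun p => if p.2 then 2 * (F.m : ℂ) * v.1 p.1 else -(2 * (F.m : ℂ) * v.1 p.1)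
  refine ⟨fun x => (∏ j, G α (2 * F.m * x.1 j) ^ wt T j) ^ k, ⟨?_, ?_⟩, ?_⟩
  · exact (prod_holo Finset.univ (fun (j : J F) (x : V F) => G α (2 * F.m * x.1 j) ^ wt T j)
      fun j _ => ((G_holo α).comp ((coord_holo j).const_mul _)).pow _).pow k
  · rintro ⟨γ, hγ⟩ x
    have hc := ch_pow hγ hk
    obtain ⟨e1, e2, a, w, h⟩ := hγ
    change (∏ j, G α (2 * F.m * (γ x).1 j) ^ wt T j) ^ k
      = fac 1 T γ x ^ k * (∏ j, G α (2 * F.m * x.1 j) ^ wt T j) ^ k
    rw [h.fac_eq, mul_pow, pow_one, hc, one_mul, ← mul_pow]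
    congr 1
    rw [← Equiv.prod_comp (pj e1 a) (fun j => G α (2 * F.m * x.1 j) ^ wt T j),
      ← Finset.prod_mul_distrib]
    refine Finset.prod_congr rfl fun j _ => ?_
    have h3 : 2 * (F.m : ℂ) * (γ x).1 j
        = 2 * F.m * (((sj e1 e2 a j : ℤ) : ℂ) * x.1 (pj e1 a j)) + 2 * F.m * w.1 j := by
      rw [h.eq x, ← mul_add, ← A_apply e1 e2 a x j]
      rfl
    have h4 : 2 * (F.m : ℂ) * (((sj e1 e2 a j : ℤ) : ℂ) * x.1 (pj e1 a j))
        = ((sj e1 e2 a j : ℤ) : ℂ) * (2 * F.m * x.1 (pj e1 a j)) := by ring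
    rw [h3, G_add α (h.gauss j), mul_pow, ← pow_mul, wt_pj]
    congr 1
    rw [h4, G_unit]
  · refine pow_ne_zero _ (Finset.prod_ne_zero_iff.2 fun j _ => pow_ne_zero _ ?_)
    have h1 := hα (j, true) (Finset.mem_univ _)
    have h2 := hα (j, false) (Finset.mem_univ _)
    simp only [if_true, Bool.false_eq_true, if_false] at h1 h2
    exact mul_ne_zero h1 h2

/-- The projection which forgets the first three coordinates. -/
def pr : V F →ₗ[ℂ] V F where
  toFun v := ⟨Sum.elim (fun _ => 0) (fun p => v.1 (Sum.inr p)), v.2⟩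
  map_add' _ _ := ext_V (fun _ => (add_zero (0 : ℂ)).symm) fun _ _ => rfl
  map_smul' c _ := ext_V (fun _ => (mul_zero (c : ℂ)).symm) fun _ _ => rfl

theorem fac_pr {γ : V F ≃ᵃ[ℂ] V F} {e1 e2 : ℤˣ} {a : ZMod F.m} {w : V F}
    (h : Rep γ e1 e2 a w) (hw : ∀ k, w.1 (Sum.inl k) = 0) (v : V F) : fac 1 false γ v = ch γ := by
  rw [h.fac_eq, pow_one, Finset.prod_eq_one, mul_one]
  intro j _
  rcases j with k | p
  · rw [hw k]
    simp [ep, H1]
  · have : wt false (Sum.inr p : J F) = 0 := rfl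
    rw [this, mul_zero, pow_zero]

/-- Only the powers with exponents divisible by all `q_i` have a nonzero section. -/
theorem dvd_of_section {k : ℕ} {s : V F → ℂ} (hs : ((LL F 1 false).pow k).IsSection s) {y : V F}
    (hy : s y ≠ 0) (i0 : Fin F.r) : F.q i0 ∣ k := by
  classical
  have hdiff : Differentiable ℂ fun v : V F => y + pr v :=
    ((LinearMap.toContinuousLinearMap (pr : V F →ₗ[ℂ] V F)).differentiable).const_add y
  have hsec : ∀ {γ : V F ≃ᵃ[ℂ] V F} {w : V F}, Rep γ 1 1 0 w → (∀ k, w.1 (Sum.inl k) = 0) →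
      ∀ v, s (v + w) = ch γ ^ k * s v := by
    intro γ w h hw v
    have h1 := hs.eq ⟨γ, 1, 1, 0, w, h⟩ v
    change s (γ v) = fac 1 false γ v ^ k * s v at h1
    rwa [fac_pr h hw, h.eq, A_one] at h1
  have hper : ∀ b ∈ Lam F, ∀ v, s (y + pr (b + v)) = s (y + pr v) := by
    intro b hb v
    have hb' : IsG (pr b) := by
      intro j
      rcases j with k | p
      · exact isGauss_zero
      · exact hb (Sum.inr p)
    obtain ⟨γ, h⟩ := hb'.rep
    have h1 := hsec h (fun _ => rfl) (y + pr v)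
    have h2 : ch γ = 1 := by
      rw [ch]
      refine Finset.prod_eq_one fun i _ => ?_
      have h3 : IsGauss ((pr b).1 (Sum.inr ⟨i, 0⟩) - 0) := by
        rw [sub_zero]
        exact hb' _
      rw [h.zero, exp_re_eq h3]
      simp
    rw [h2, one_pow, one_mul] at h1
    have h4 : y + pr (b + v) = y + pr v + pr b := by
      rw [map_add]
      abel
    rw [h4]
    exact h1
  have hc := TQ.const_of_periodic (Lam F) span_Lam (fun v => s (y + pr v)) (hs.holo.comp hdiff)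
    hper
  have hq : (F.q i0 : ℂ) ≠ 0 := m_ne
  obtain ⟨g, hg⟩ : ∃ g : J F → ℂ, g = Sum.elim (fun _ => 0)
      (fun p => if p.1 = i0 then (if p.2 = 0 then 1 else 0) - 1 / (F.q i0 : ℂ) else 0) :=
    ⟨_, rfl⟩
  have hg1 : ∀ i : ZMod (F.q i0), g (Sum.inr ⟨i0, i⟩)
      = (if i = 0 then 1 else 0) - 1 / (F.q i0 : ℂ) := fun i => by
    rw [hg]
    simp
  have hg2 : ∀ (b : B F) (i : ZMod (F.q b)), b ≠ i0 → g (Sum.inr ⟨b, i⟩) = 0 :=
    fun b i hb => by
    rw [hg]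
    simp [hb]
  have hw : ∀ b : B F, ∑ i : ZMod (F.q b), g (Sum.inr ⟨b, i⟩) = 0 := by
    intro b
    by_cases hb : b = i0
    · subst hb
      simp only [hg1]
      rw [Finset.sum_sub_distrib, Finset.sum_ite_eq', if_pos (Finset.mem_univ _),
        Finset.sum_const, Finset.card_univ, ZMod.card, nsmul_eq_mul, mul_one_div_cancel hq,
        sub_self]
    · exact Finset.sum_eq_zero fun i _ => hg2 b i hb
  obtain ⟨w, hwe⟩ : ∃ w : V F, w.1 = g := ⟨⟨g, hw⟩, rfl⟩
  have hwl : ∀ k, w.1 (Sum.inl k) = 0 := fun k => by rw [hwe, hg]; rfl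
  obtain ⟨γ, h⟩ := exists_rep 1 1 (0 : ZMod F.m) w (fun k => by
    have h1 : cc (0 : ZMod F.m) k = 0 := by fin_cases k <;> rfl
    have h2 : et 1 1 k = 1 := by fin_cases k <;> rfl
    rw [h1, h2, hwl]
    exact cg_gauss isGauss_zero) fun b i i' => by
    rw [hwe]
    by_cases hb : b = i0
    · subst hb
      have h1 : ∀ P : Prop, [Decidable P] → IsGauss (if P then (1 : ℂ) else 0) := by
        intro P _
        by_cases h : P
        · rw [if_pos h]
          exact isGauss_one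
        · rw [if_neg h]
          exact isGauss_zero
      have h2 := (h1 (i = 0)).add (h1 (i' = 0)).neg
      rw [hg1 i, hg1 i', sub_sub_sub_cancel_right, sub_eq_add_neg]
      exact h2
    · rw [hg2 b i hb, hg2 b i' hb, sub_zero]
      exact isGauss_zero
  have h1 := hsec h hwl y
  have hprw : pr w = w := ext_V (fun k => (hwl k).symm) fun b i => rfl
  have h2 : s (y + w) = s y := by
    have h3 := hc w 0
    simp only [hprw, map_zero, add_zero] at h3
    exact h3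
  rw [h2] at h1
  have h3 : ch γ ^ k = 1 := (mul_right_cancel₀ hy ((one_mul _).trans h1)).symm
  have h4 : ch γ = (Complex.exp (2 * Real.pi * Complex.I / F.q i0))⁻¹ := by
    rw [ch, Finset.prod_eq_single i0]
    · have e1 : (w.1 (Sum.inr ⟨i0, 0⟩)) = (((1 - 1 / F.q i0 : ℝ)) : ℂ) := by
        rw [hwe, hg1]
        simp
      rw [h.zero, e1, Complex.ofReal_re, ← Complex.exp_neg, Complex.exp_eq_exp_iff_exists_int]
      refine ⟨1, ?_⟩
      push_cast
      ring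
    · intro i _ hi
      have e1 : (w.1 (Sum.inr ⟨i, 0⟩)) = 0 := by
        rw [hwe]
        exact hg2 i 0 hi
      rw [h.zero, e1]
      simp
    · simp
  rw [h4, inv_pow, inv_eq_one] at h3
  exact (Complex.isPrimitiveRoot_exp (F.q i0) (NeZero.ne _)).dvd_of_pow_eq_one k h3

theorem pos_all : IsPositiveForm (HH true : V F → V F → ℂ) := by
  intro v hv
  obtain ⟨j, h⟩ : ∃ j, v.1 j ≠ 0 := by
    by_contra hcon
    push Not at hcon
    exact hv (Subtype.ext (funext hcon))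
  refine HH_pos (j := j) ?_ h
  rcases j with k | p
  · simp [wt]
  · simp [wt]

theorem nonzero : ∃ v w : V F, HH false v w ≠ 0 := by
  classical
  refine ⟨el (Sum.inl 0) 1, el (Sum.inl 0) 1, fun h => ?_⟩
  have h1 : (el (Sum.inl 0) 1 : V F).1 (Sum.inl 0) ≠ 0 := by
    rw [el_inl]
    simp
  have h2 := HH_pos (T := false) (j := (Sum.inl 0 : J F)) (by simp [wt]) h1
  rw [h, Complex.zero_re] at h2
  exact lt_irrefl _ h2

end Pool.Agent.H14.LK
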