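import Pool.Agent.H14.LK.Grp

/-!
# The linear parts have determinant one
-/

set_option autoImplicit false
set_option linter.unusedSectionVars false

namespace Pool.Agent.H14.LK

open Module
open Pool.Agent.W594.SYZ2

variable {F : Fam}

/-- The determinants -/
noncomputable def D (ε : Fin 5 → ℤˣ) (f : ∀ b : B F, Equiv.Perm (ZMod (F.q b))) : ℂ :=
  LinearMap.det (M ε f : V F →ₗ[ℂ] V F)

theorem D_mul (ε ε' : Fin 5 → ℤˣ) (f f' : ∀ b : B F, Equiv.Perm (ZMod (F.q b))) :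
    D (ε * ε') (f' * f) = D ε f * D ε' f' := by
  rw [D, D, D, ← LinearMap.det_comp]
  congr 1
  exact LinearMap.ext fun v => (M_M ε ε' f f' v).symm

theorem D_one : D (1 : Fin 5 → ℤˣ) (1 : ∀ b : B F, Equiv.Perm (ZMod (F.q b))) = 1 := by
  have : (M 1 1 : V F →ₗ[ℂ] V F) = LinearMap.id := LinearMap.ext fun v => M_one v
  rw [D, this, LinearMap.det_id]

/-- one sign -/
theorem D_single (k0 : Fin 5) :
    D (Pi.mulSingle k0 (-1)) (1 : ∀ b : B F, Equiv.Perm (ZMod (F.q b))) = -1 := by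
  classical
  obtain ⟨u, hu⟩ : ∃ u : V F, u.1 = fun j => if j = Sum.inl k0 then 1 else 0 :=
    ⟨⟨fun j => if j = Sum.inl k0 then 1 else 0, fun b => by simp⟩, rfl⟩
  let φ : V F →ₗ[ℂ] ℂ :=
    { toFun := fun v => -2 * v.1 (Sum.inl k0)
      map_add' := fun v w => mul_add _ _ _
      map_smul' := fun c v => by
        change -2 * (c * v.1 (Sum.inl k0)) = c * (-2 * v.1 (Sum.inl k0))
        ring }
  have h : (M (Pi.mulSingle k0 (-1)) 1 : V F →ₗ[ℂ] V F) = LinearMap.transvection φ u :=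
    LinearMap.ext fun v => ext_V (fun k => by
      change (((Pi.mulSingle k0 (-1) : Fin 5 → ℤˣ) k : ℤ) : ℂ) * v.1 (Sum.inl k)
        = v.1 (Sum.inl k) + (-2 * v.1 (Sum.inl k0)) * u.1 (Sum.inl k)
      rw [hu]
      by_cases hk : k = k0
      · subst hk
        simp
        ring
      · rw [Pi.mulSingle_eq_of_ne hk]
        simp [hk]) fun b i => by
      change v.1 (Sum.inr ⟨b, i⟩) = v.1 (Sum.inr ⟨b, i⟩) + (-2 * v.1 (Sum.inl k0)) * u.1 (Sum.inr ⟨b, i⟩)
      rw [hu]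
      simp
  rw [D, h, LinearMap.transvection.det]
  change 1 + -2 * u.1 (Sum.inl k0) = -1
  rw [hu]
  simp
  norm_num

/-- one transposition -/
theorem D_swap (b0 : B F) (i0 i1 : ZMod (F.q b0)) (hne : i0 ≠ i1) :
    D (F := F) 1 (Pi.mulSingle b0 (Equiv.swap i0 i1)) = -1 := by
  classical
  obtain ⟨u, hu⟩ : ∃ u : V F, u.1 = fun j => (if j = Sum.inr ⟨b0, i0⟩ then 1 else 0)
      - if j = Sum.inr ⟨b0, i1⟩ then 1 else 0 :=
    ⟨⟨fun j => (if j = Sum.inr ⟨b0, i0⟩ then 1 else 0)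
      - if j = Sum.inr ⟨b0, i1⟩ then 1 else 0, fun b => by
        rw [Finset.sum_sub_distrib]
        by_cases hb : b = b0
        · subst hb
          simp
        · have h1 : ∀ (i : ZMod (F.q b)) (i' : ZMod (F.q b0)),
              ¬ ((Sum.inr ⟨b, i⟩ : J F) = Sum.inr ⟨b0, i'⟩) := fun i i' h =>
            hb (congrArg Sigma.fst (Sum.inr.inj h))
          simp [h1]⟩, rfl⟩
  let φ : V F →ₗ[ℂ] ℂ :=
    { toFun := fun v => v.1 (Sum.inr ⟨b0, i1⟩) - v.1 (Sum.inr ⟨b0, i0⟩)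
      map_add' := fun v w => by
        change v.1 (Sum.inr ⟨b0, i1⟩) + w.1 (Sum.inr ⟨b0, i1⟩)
          - (v.1 (Sum.inr ⟨b0, i0⟩) + w.1 (Sum.inr ⟨b0, i0⟩))
          = v.1 (Sum.inr ⟨b0, i1⟩) - v.1 (Sum.inr ⟨b0, i0⟩)
            + (w.1 (Sum.inr ⟨b0, i1⟩) - w.1 (Sum.inr ⟨b0, i0⟩))
        ring
      map_smul' := fun c v => by
        change c * v.1 (Sum.inr ⟨b0, i1⟩) - c * v.1 (Sum.inr ⟨b0, i0⟩)
          = c * (v.1 (Sum.inr ⟨b0, i1⟩) - v.1 (Sum.inr ⟨b0, i0⟩))
        ring }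
  have h : (M 1 (Pi.mulSingle b0 (Equiv.swap i0 i1)) : V F →ₗ[ℂ] V F) = LinearMap.transvection φ u :=
    LinearMap.ext fun v => ext_V (fun k => by
      change (((1 : Fin 5 → ℤˣ) k : ℤ) : ℂ) * v.1 (Sum.inl k)
        = v.1 (Sum.inl k) + (v.1 (Sum.inr ⟨b0, i1⟩) - v.1 (Sum.inr ⟨b0, i0⟩)) * u.1 (Sum.inl k)
      rw [hu]
      simp) fun b i => by
      change v.1 (Sum.inr ⟨b, (Pi.mulSingle b0 (Equiv.swap i0 i1) :
          ∀ b : B F, Equiv.Perm (ZMod (F.q b))) b i⟩) = v.1 (Sum.inr ⟨b, i⟩)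
          + (v.1 (Sum.inr ⟨b0, i1⟩) - v.1 (Sum.inr ⟨b0, i0⟩)) * u.1 (Sum.inr ⟨b, i⟩)
      rw [hu]
      by_cases hb : b = b0
      · subst hb
        rw [Pi.mulSingle_eq_same]
        by_cases h0 : i = i0
        · subst h0
          rw [Equiv.swap_apply_left]
          simp [hne]
        · by_cases h1 : i = i1
          · subst h1
            rw [Equiv.swap_apply_right]
            simp [h0]
          · rw [Equiv.swap_apply_of_ne_of_ne h0 h1]
            simp [h0, h1]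
      · have h1 : ∀ (i' : ZMod (F.q b0)),
            ¬ ((Sum.inr ⟨b, i⟩ : J F) = Sum.inr ⟨b0, i'⟩) := fun i' h =>
          hb (congrArg Sigma.fst (Sum.inr.inj h))
        rw [Pi.mulSingle_eq_of_ne hb]
        simp [h1]
  rw [D, h, LinearMap.transvection.det]
  change 1 + (u.1 (Sum.inr ⟨b0, i1⟩) - u.1 (Sum.inr ⟨b0, i0⟩)) = -1
  rw [hu]
  simp [hne, hne.symm]

/-- the signs of the first coordinates -/
theorem D_sg (e1 e2 u : ℤˣ) :
    D (sg e1 e2 u) (1 : ∀ b : B F, Equiv.Perm (ZMod (F.q b))) = ((u : ℤ) : ℂ) := by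
  have h1 : ∀ (k : Fin 5) (e : ℤˣ), D (Pi.mulSingle k e) (1 : ∀ b : B F, Equiv.Perm (ZMod (F.q b)))
      = ((e : ℤ) : ℂ) := by
    intro k e
    rcases Int.units_eq_one_or e with rfl | rfl
    · rw [Pi.mulSingle_one, D_one]
      simp
    · rw [D_single]
      simp
  have h2 : sg e1 e2 u = Pi.mulSingle 0 e1 * (Pi.mulSingle 1 e2 * (Pi.mulSingle 2 (e1 * e2)
      * (Pi.mulSingle 3 (u * e2) * Pi.mulSingle 4 e2))) := by
    funext k
    fin_cases k <;> simp [sg, Pi.mulSingle_apply]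
  have h3 : ∀ ε ε' : Fin 5 → ℤˣ, D (ε * ε') (1 : ∀ b : B F, Equiv.Perm (ZMod (F.q b)))
      = D ε 1 * D ε' 1 := fun ε ε' => by
    have h := D_mul (F := F) ε ε' 1 1
    rwa [one_mul] at h
  rw [h2, h3, h3, h3, h3, h1, h1, h1, h1, h1]
  rcases Int.units_eq_one_or e1 with rfl | rfl <;> rcases Int.units_eq_one_or e2 with rfl | rfl <;>
    simp

/-- the determinant of a permutation of one block is its sign -/
theorem D_block (b0 : B F) (σ : Equiv.Perm (ZMod (F.q b0))) :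
    D (F := F) 1 (Pi.mulSingle b0 σ) = ((Equiv.Perm.sign σ : ℤ) : ℂ) := by
  classical
  induction σ using Equiv.Perm.swap_induction_on with
  | one =>
    rw [Pi.mulSingle_one, D_one]
    simp
  | swap_mul σ x y hxy ih =>
    have h := D_mul (F := F) 1 1 (Pi.mulSingle b0 σ) (Pi.mulSingle b0 (Equiv.swap x y))
    rw [mul_one, ← Pi.mulSingle_mul] at h
    rw [h, ih, D_swap b0 x y hxy, Equiv.Perm.sign_mul, Equiv.Perm.sign_swap hxy]
    simp

/-- the determinant of the permutations of the blocks -/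
theorem D_perm (p : ∀ b : B F, Equiv.Perm (ZMod (F.q b))) :
    D (F := F) 1 p = ((∏ b, Equiv.Perm.sign (p b) : ℤˣ) : ℤ) := by
  classical
  have h1 : ∀ s : Finset (B F), D (F := F) 1 (fun b => if b ∈ s then p b else 1)
      = ((∏ b ∈ s, Equiv.Perm.sign (p b) : ℤˣ) : ℤ) := by
    intro s
    induction s using Finset.induction_on with
    | empty =>
      have h2 : (fun b : B F => if b ∈ (∅ : Finset (B F)) then p b else 1) = 1 := by
        funext b
        simp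
      rw [h2, D_one]
      simp
    | insert a s ha ih =>
      have h2 : (fun b : B F => if b ∈ insert a s then p b else 1)
          = (fun b => if b ∈ s then p b else 1) * Pi.mulSingle a (p a) := by
        funext b
        by_cases hb : b = a
        · subst hb
          simp [ha]
        · simp [hb]
      have h3 := D_mul (F := F) 1 1 (Pi.mulSingle a (p a)) (fun b => if b ∈ s then p b else 1)
      rw [mul_one, ← h2] at h3
      rw [h3, ih, D_block, Finset.prod_insert ha, Units.val_mul]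
      push_cast
      rfl
  have h4 := h1 Finset.univ
  simpa using h4

theorem det_A (e1 e2 : ℤˣ) (a : ZMod F.m) : LinearMap.det (A e1 e2 a : V F →ₗ[ℂ] V F) = 1 := by
  have h := D_mul (F := F) (sg e1 e2 (dl e1 a)) 1 1 (fun b : B F => pm e1 (ca b a))
  rw [mul_one, mul_one, D_sg, D_perm] at h
  have h2 : (∏ b : B F, Equiv.Perm.sign (pm e1 (ca b a)) : ℤˣ) = dl e1 a := rfl
  rw [h2] at h
  have h3 : (((dl e1 a : ℤˣ) : ℤ) : ℂ) * ((dl e1 a : ℤˣ) : ℤ) = 1 := by
    rcases Int.units_eq_one_or (dl e1 a) with h4 | h4 <;> rw [h4] <;> simp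
  rw [h3] at h
  exact h

theorem det_eq {γ : V F ≃ᵃ[ℂ] V F} (hγ : γ ∈ Gam F) :
    LinearMap.det (γ.linear : V F →ₗ[ℂ] V F) = 1 := by
  obtain ⟨e1, e2, a, w, h⟩ := hγ
  have : (γ.linear : V F →ₗ[ℂ] V F) = A e1 e2 a := LinearMap.ext fun v => h.linear v
  rw [this]
  exact det_A e1 e2 a

end Pool.Agent.H14.LK
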